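import Pool.Agent.TH41.SC.Fin

/-!
# MP_b5f63d_co: spherical codes of every angle and kissing numbers, in closed form

With `g (1 / sin θ)` the Kabatiansky-Levenshtein exponent at the angle `θ`, put, for `η > 0`,

* `oddSum η = ∑ n odd, n / sinh (n η)`, `evenSum η = ∑ n even, n / sinh (n η)`,
* `Φ η = g (coth η) - g (coth (2 η)) + g (coth (3 η)) - ...`.

If `cos θ * oddSum η ≤ evenSum η` then the exponential growth rate of the largest spherical codes of
angle `θ` is at most `Φ η`; every angle `0 < θ < π / 2` is reached with equality. Keeping only the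
first terms of the three series gives exactly the Kabatiansky-Levenshtein bound. For `θ = π / 3` one
obtains `2 ^ (0.396601 d)` for the kissing numbers.
-/

open Filter

namespace Pool.Agent.Results.MP_b5f63d_co.ClosedFormCurve

open Pool.Agent.H613R2.LP

/-- `C` is a spherical code of angle `θ`: unit vectors of `ℝⁿ`, any two distinct ones with inner
product at most `cos θ`. -/
def IsCode {n : ℕ} (θ : ℝ) (C : Finset (EuclideanSpace ℝ (Fin n))) : Prop :=
  (∀ x ∈ C, ‖x‖ = 1) ∧ ∀ x ∈ C, ∀ y ∈ C, x ≠ y → inner ℝ x y ≤ Real.cos θ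

/-- `A n θ`: the largest number of points of a spherical code of angle `θ` in `ℝⁿ`. -/
noncomputable def A (n : ℕ) (θ : ℝ) : ℕ :=
  sSup {k | ∃ C : Finset (EuclideanSpace ℝ (Fin n)), IsCode θ C ∧ C.card = k}

/-- `rate θ = limsup (1 / n) log (A n θ)` (natural logarithm). -/
noncomputable def rate (θ : ℝ) : ℝ := limsup (fun n : ℕ => Real.log (A n θ) / n) atTop

/-- `g ν = ((ν + 1) / 2) log ((ν + 1) / 2) - ((ν - 1) / 2) log ((ν - 1) / 2)`; the
Kabatiansky-Levenshtein bound says `rate θ ≤ g (1 / sin θ)`. -/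
noncomputable def g (ν : ℝ) : ℝ :=
  (ν + 1) / 2 * Real.log ((ν + 1) / 2) - (ν - 1) / 2 * Real.log ((ν - 1) / 2)

/-- `∑ n / sinh (n η)` over the odd numbers `n ≥ 1` -/
noncomputable def oddSum (η : ℝ) : ℝ := ∑' m : ℕ, (2 * (m : ℝ) + 1) / Real.sinh ((2 * m + 1) * η)

/-- `∑ n / sinh (n η)` over the even numbers `n ≥ 2` -/
noncomputable def evenSum (η : ℝ) : ℝ := ∑' m : ℕ, (2 * (m : ℝ) + 2) / Real.sinh ((2 * m + 2) * η)

/-- `∑ (-1) ^ n g (coth ((n + 1) η))` over `n ≥ 0` -/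
noncomputable def Φ (η : ℝ) : ℝ :=
  ∑' n : ℕ, (-1) ^ n * g (Real.cosh ((n + 1) * η) / Real.sinh ((n + 1) * η))

theorem result :
    (∀ η : ℝ, 0 < η →
      Summable (fun m : ℕ => (2 * (m : ℝ) + 1) / Real.sinh ((2 * m + 1) * η)) ∧
      Summable (fun m : ℕ => (2 * (m : ℝ) + 2) / Real.sinh ((2 * m + 2) * η)) ∧
      Summable
        (fun n : ℕ => (-1) ^ n * g (Real.cosh ((n + 1) * η) / Real.sinh ((n + 1) * η))) ∧
      0 < Φ η ∧ Φ η < g (Real.cosh η / Real.sinh η)) ∧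
    (∀ θ : ℝ, 0 < θ → θ < Real.pi / 2 →
      (∃ η : ℝ, 0 < η ∧ Real.cos θ * oddSum η = evenSum η) ∧
      ∀ η : ℝ, 0 < η → Real.cos θ * oddSum η ≤ evenSum η → rate θ ≤ Φ η) ∧
    (∀ η : ℝ, 0 < η → oddSum η ≤ 2 * evenSum η →
      limsup (fun d : ℕ => Real.logb 2 (kissing d) / d) atTop ≤ Φ η / Real.log 2) ∧
    (∀ᶠ d : ℕ in atTop, (kissing d : ℝ) ≤ (2 : ℝ) ^ ((396601 / 1000000 : ℝ) * d)) ∧
    limsup (fun d : ℕ => Real.logb 2 (kissing d) / d) atTop < 396601 / 1000000 := by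
  refine ⟨fun η hη => ⟨Pool.Agent.TH41.SC.odd_summable hη, Pool.Agent.TH41.SC.even_summable hη,
      Pool.Agent.TH41.SC.Ψ_summable hη, Pool.Agent.TH41.SC.Ψ_bounds hη⟩,
    fun θ h0 h1 => ?_, fun η hη h => Pool.Agent.TH41.SC.kiss_Ψ hη h,
    Pool.Agent.TH41.SC.kiss_num⟩
  have hcos : Real.cos θ < 1 := by
    have := Real.strictAntiOn_cos (Set.left_mem_Icc.mpr Real.pi_pos.le)
      ⟨h0.le, by linarith [Real.pi_pos]⟩ h0
    rwa [Real.cos_zero] at this
  have hcos0 : 0 < Real.cos θ := Real.cos_pos_of_mem_Ioo ⟨by linarith, h1⟩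
  exact ⟨Pool.Agent.TH41.SC.exists_η hcos0 hcos,
    fun η hη h => Pool.Agent.TH41.SC.rate_Ψ hcos hη h⟩

end Pool.Agent.Results.MP_b5f63d_co.ClosedFormCurve
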