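import Pool.Agent.TH856.KL.Asym

/-!
# Kissing numbers of lattices with automorphisms

Let `Λ` be a lattice of `ℝⁿ` with nonzero vectors of length at least `1` and let `τ(k)` be the
kissing number of `ℝᵏ`. If `ℝⁿ` is the orthogonal sum of `m` subspaces `V i` of dimension at most
`K` and the sum of the `Λ ∩ V i` has index `I` in `Λ`, then `Λ` has at most
`I (m + 1)^5 (2 n + 1)^3 τ(K)` vectors of length `1`. For automorphisms `g i` of `Λ` with pairwise
orthogonal moved spaces the index is at most `D ^ (sum of the dimensions of the moved spaces)`,
where `p ≤ D ^ φ(p ^ k)` for all prime powers `p ^ k` which are orders of eigenvalues. Hence, if all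
periods of the vectors which are not fixed are large, the number of vectors of length `1` is at most
`2 ^ (c₊ K + ε n)`, where `K` is the maximal dimension of the moved spaces and of the common fixed
space, and for `K ≤ 0.52 n` it is exponentially smaller than the kissing number of `ℝⁿ`.
-/

set_option autoImplicit false

namespace Pool.Agent.Results.MP_b5f63d_co.LatticeSymmetries

open Pool.Agent.TH856.KL

/-- Kissing numbers of lattices: gluing inequality, automorphisms, exponents. -/
theorem result : Gluing ∧ AutIneq ∧ OneIneq ∧ Exps ∧ LongPeriods ∧ FewVectors :=
  ⟨gluing, autIneq, oneIneq, exps, longPeriods, fewVectors⟩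

end Pool.Agent.Results.MP_b5f63d_co.LatticeSymmetries
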