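import Pool.Agent.TH41.KL.FIN
import Pool.Agent.TH41.BL.ASM10

/-!
# MP_b5f63d_co: the exponential rate of the linear programming bound for kissing numbers

The linear programming bound of Delsarte, Goethals and Seidel bounds the size of all spherical codes
in `S^(n-1)` with inner products at most `s` by `g(1) / c₀(g)`, where `g(⟨x, y⟩)` is a positive
definite kernel on the sphere with mean `c₀(g)` and `g ≤ 0` on `[-1, s]`. Let `LP(n, s)` be the best
bound of this kind.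

* `LP(n, s) ≤ exp(n (Φ(η) + o(1)))` for all `s < 1` and `η > 0` with `s O(η) ≤ E(η)`, where `O(η)`
  and `E(η)` are the sums of `m / sinh(m η)` over the odd and the even `m ≥ 1` and
  `Φ(η) = g₀(coth η) - g₀(coth 2η) + g₀(coth 3η) - ...`, `g₀` the Kabatiansky-Levenshtein function;
* `LP(n, s) ≥ (e / (π (1 - s)))^(n/2 - o(n))` for `s ≤ 1/2`;
* for kissing configurations `2^(0.3955 n) ≤ LP(n, 1/2) ≤ 2^(0.396601 n)` for all large `n`.
-/

open MeasureTheory Filter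

namespace Pool.Agent.Results.MP_b5f63d_co.LinearProgrammingLimit

/-- The auxiliary functions of the linear programming bound for spherical codes in `S^(n-1)` with
inner products at most `s` (Gegenbauer expansions with nonnegative coefficients, by Schoenberg's
theorem). -/
structure IsAuxiliary (n : ℕ) (s : ℝ) (g : ℝ → ℝ) : Prop where
  continuousOn : ContinuousOn g (Set.Icc (-1) 1)
  posdef : ∀ (m : ℕ) (x : Fin m → EuclideanSpace ℝ (Fin n)) (a : Fin m → ℝ), (∀ i, ‖x i‖ = 1) →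
    0 ≤ ∑ i, ∑ j, a i * a j * g (inner ℝ (x i) (x j))
  nonpos : ∀ t : ℝ, -1 ≤ t → t ≤ s → g t ≤ 0

/-- The unit ball of `ℝ^n`. -/
abbrev ball (n : ℕ) : Set (EuclideanSpace ℝ (Fin n)) := Metric.ball 0 1

/-- The mean of `g(⟨x, y⟩)` over the sphere: the mean of `g` of the cosine of the angle between two
independent random points of the unit ball. -/
noncomputable def mean (n : ℕ) (g : ℝ → ℝ) : ℝ :=
  (∫ u in ball n, ∫ w in ball n, g (inner ℝ u w / (‖u‖ * ‖w‖))) / (volume (ball n)).toReal ^ 2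

/-- The linear programming bound for spherical codes in `S^(n-1)` with inner products at most `s`:
the infimum of the bounds given by the auxiliary functions with positive mean. -/
noncomputable def LP (n : ℕ) (s : ℝ) : ℝ :=
  sInf {v : ℝ | ∃ g : ℝ → ℝ, IsAuxiliary n s g ∧ 0 < mean n g ∧ v = g 1 / mean n g}

/-- `∑ m / sinh (m η)` over the odd numbers `m ≥ 1` -/
noncomputable def oddSum (η : ℝ) : ℝ := ∑' m : ℕ, (2 * (m : ℝ) + 1) / Real.sinh ((2 * m + 1) * η)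

/-- `∑ m / sinh (m η)` over the even numbers `m ≥ 2` -/
noncomputable def evenSum (η : ℝ) : ℝ := ∑' m : ℕ, (2 * (m : ℝ) + 2) / Real.sinh ((2 * m + 2) * η)

/-- The Kabatiansky-Levenshtein function
`g₀(ν) = ((ν + 1) / 2) log ((ν + 1) / 2) - ((ν - 1) / 2) log ((ν - 1) / 2)`. -/
noncomputable def g₀ (ν : ℝ) : ℝ :=
  (ν + 1) / 2 * Real.log ((ν + 1) / 2) - (ν - 1) / 2 * Real.log ((ν - 1) / 2)

/-- `g₀ (coth η) - g₀ (coth (2 η)) + g₀ (coth (3 η)) - …` -/
noncomputable def Φ (η : ℝ) : ℝ :=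
  ∑' m : ℕ, (-1) ^ m * g₀ (Real.cosh ((m + 1) * η) / Real.sinh ((m + 1) * η))

open Pool.Agent.TH41.KL in
lemma mean_eq (n : ℕ) (g : ℝ → ℝ) :
    mean n g = (∫ u, ∫ w, kk (n := n) g u w) /
      (volume (Metric.ball (0 : EuclideanSpace ℝ (Fin n)) 1)).toReal ^ 2 := by
  unfold mean
  congr 1
  rw [← integral_indicator measurableSet_ball]
  congr 1
  funext u
  by_cases hu : u ∈ Metric.ball (0 : EuclideanSpace ℝ (Fin n)) 1
  · rw [Set.indicator_of_mem hu, ← integral_indicator measurableSet_ball]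
    congr 1
    funext w
    unfold kk
    rw [Set.indicator_of_mem hu]
    by_cases hw : w ∈ Metric.ball (0 : EuclideanSpace ℝ (Fin n)) 1
    · rw [Set.indicator_of_mem hw, Set.indicator_of_mem hw]
      rfl
    · rw [Set.indicator_of_notMem hw, Set.indicator_of_notMem hw]
  · rw [Set.indicator_of_notMem hu]
    have : ∀ w, kk (n := n) g u w = 0 := by
      intro w
      unfold kk
      rw [Set.indicator_of_notMem hu]
    simp [this]

lemma lower : ∀ ε : ℝ, 0 < ε → ∀ᶠ n : ℕ in atTop, ∀ (s : ℝ) (g : ℝ → ℝ), -1 ≤ s → s ≤ 1 / 2 →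
      IsAuxiliary n s g → 0 < mean n g →
      (Real.exp 1 / (Real.pi * (1 - s))) ^ ((n : ℝ) / 2) * Real.exp (-ε * n) ≤ g 1 / mean n g := by
  intro ε hε
  obtain ⟨n0, h⟩ := Pool.Agent.TH41.KL.FINf.kmain ε hε
  filter_upwards [eventually_ge_atTop n0] with n hn s g hs1 hs2 hg hm
  rw [mean_eq] at hm ⊢
  refine h n hn s g hs1 hs2 hg.continuousOn hg.posdef hg.nonpos ?_
  by_contra hneg
  rw [not_lt] at hneg
  exact absurd hm (not_lt.2 (div_nonpos_of_nonpos_of_nonneg hneg (by positivity)))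

open Pool.Agent.TH41.BL in
lemma upper (κ η : ℝ) (hκ : κ < 1) (hη : 0 < η) (h : κ * oddSum η ≤ evenSum η) (ε : ℝ)
    (hε : 0 < ε) : ∀ᶠ n : ℕ in atTop, ∃ g : ℝ → ℝ, IsAuxiliary n κ g ∧ 0 < mean n g ∧
      g 1 / mean n g ≤ Real.exp (n * (Φ η + ε)) := by
  filter_upwards [k10_fin.1 κ η hκ hη h ε hε] with n hn
  obtain ⟨g, hg, hm, hb⟩ := hn
  exact ⟨g, ⟨hg.continuousOn, hg.posdef, hg.nonpos⟩, hm, hb⟩

open Pool.Agent.TH41.BL in
lemma upper_kiss : ∀ᶠ n : ℕ in atTop, ∃ g : ℝ → ℝ, IsAuxiliary n (1 / 2) g ∧ 0 < mean n g ∧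
      g 1 / mean n g ≤ (2 : ℝ) ^ ((396601 / 1000000 : ℝ) * n) := by
  filter_upwards [k10_fin.2] with n hn
  obtain ⟨g, hg, hm, hb⟩ := hn
  exact ⟨g, ⟨hg.continuousOn, hg.posdef, hg.nonpos⟩, hm, hb⟩

/-- `g(1) ≥ 0` for an auxiliary function, if the sphere is not empty. -/
lemma one_nonneg {n : ℕ} {s : ℝ} {g : ℝ → ℝ} (hn : 0 < n) (hg : IsAuxiliary n s g) : 0 ≤ g 1 := by
  have h := hg.posdef 1 (fun _ => EuclideanSpace.single ⟨0, hn⟩ (1 : ℝ)) (fun _ => 1) (by simp)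
  simpa using h

/-- **The rate of the linear programming bound for spherical codes and kissing numbers.** -/
theorem result :
    (∀ s η : ℝ, s < 1 → 0 < η → s * oddSum η ≤ evenSum η → ∀ ε : ℝ, 0 < ε →
      ∀ᶠ n : ℕ in atTop, LP n s ≤ Real.exp (n * (Φ η + ε))) ∧
    (∀ s : ℝ, 0 < s → s < 1 → ∃ η : ℝ, 0 < η ∧ s * oddSum η = evenSum η) ∧
    (∀ ε : ℝ, 0 < ε → ∀ᶠ n : ℕ in atTop, ∀ s : ℝ, -1 ≤ s → s ≤ 1 / 2 →
      (Real.exp 1 / (Real.pi * (1 - s))) ^ ((n : ℝ) / 2) * Real.exp (-ε * n) ≤ LP n s) ∧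
    ∀ᶠ n : ℕ in atTop, (2 : ℝ) ^ ((3955 / 10000 : ℝ) * n) ≤ LP n (1 / 2) ∧
      LP n (1 / 2) ≤ (2 : ℝ) ^ ((396601 / 1000000 : ℝ) * n) := by
  have hbdd : ∀ (n : ℕ) (s : ℝ), 0 < n →
      BddBelow {v : ℝ | ∃ g : ℝ → ℝ, IsAuxiliary n s g ∧ 0 < mean n g ∧ v = g 1 / mean n g} := by
    intro n s hn
    refine ⟨0, ?_⟩
    rintro v ⟨g, hg, hm, rfl⟩
    exact div_nonneg (one_nonneg hn hg) hm.le
  have hlow : ∀ ε : ℝ, 0 < ε → ∀ᶠ n : ℕ in atTop, ∀ s : ℝ, -1 ≤ s → s ≤ 1 / 2 →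
      (Real.exp 1 / (Real.pi * (1 - s))) ^ ((n : ℝ) / 2) * Real.exp (-ε * n) ≤ LP n s := by
    intro ε hε
    filter_upwards [lower ε hε, upper_kiss] with n h1 h2 s hs1 hs2
    obtain ⟨g, hg, hm, -⟩ := h2
    refine le_csInf ⟨_, g, ⟨hg.continuousOn, hg.posdef, fun t ht1 ht2 =>
      hg.nonpos t ht1 (ht2.trans hs2)⟩, hm, rfl⟩ ?_
    rintro v ⟨g', hg', hm', rfl⟩
    exact h1 s g' hs1 hs2 hg' hm'
  refine ⟨fun s η hs hη h ε hε => ?_, fun s h0 h1 => Pool.Agent.TH41.SC.exists_η h0 h1, hlow, ?_⟩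
  · filter_upwards [upper s η hs hη h ε hε, eventually_gt_atTop 0] with n hn hn0
    obtain ⟨g, hg, hm, hb⟩ := hn
    exact (csInf_le (hbdd n s hn0) ⟨g, hg, hm, rfl⟩).trans hb
  · set c0 := 1 / 2 * Real.logb 2 (2 * Real.exp 1 / Real.pi) with hc0
    have hc : 3955 / 10000 < c0 := Pool.Agent.TH41.KL.FINf.num_lower
    have hlog2 : 0 < Real.log 2 := Real.log_pos (by norm_num)
    have hpi := Real.pi_pos
    set ε := (c0 - 3955 / 10000) * Real.log 2 with hε
    have hε0 : 0 < ε := mul_pos (by linarith) hlog2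
    filter_upwards [hlow ε hε0, upper_kiss, eventually_gt_atTop 0] with n h1 h2 hn0
    refine ⟨le_trans (le_of_eq ?_) (h1 (1 / 2) (by norm_num) le_rfl), ?_⟩
    · have e1 : (Real.exp 1 / (Real.pi * (1 - 1 / 2))) ^ ((n : ℝ) / 2) =
          Real.exp (c0 * Real.log 2 * n) := by
        rw [show Real.exp 1 / (Real.pi * (1 - 1 / 2)) = 2 * Real.exp 1 / Real.pi by
          field_simp; norm_num]
        rw [Real.rpow_def_of_pos (by positivity), hc0, Real.logb]
        congr 1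
        field_simp
      rw [e1, ← Real.exp_add, Real.rpow_def_of_pos (by norm_num), hε]
      congr 1
      ring
    · obtain ⟨g, hg, hm, hb⟩ := h2
      exact (csInf_le (hbdd n _ hn0) ⟨g, hg, hm, rfl⟩).trans hb

end Pool.Agent.Results.MP_b5f63d_co.LinearProgrammingLimit
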