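import Pool.Agent.TH220.NT.Kiss

/-!
# MP_b5f63d_co: kissing configurations and their middle distances

Let `C` be a kissing configuration of `ℝ^n`: a finite set of unit vectors with mutual inner products
at most `1 / 2` (mutual distances at least `1`). For `1 ≤ α < β` let `fewMid C α β κ` be the set of
the points of `C` which have at most `κ` points of `C` at distance strictly between `α` and `β`.
Its size is at most `(κ + 1) D`, with an explicit `D` (products of few maximal sizes of spherical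
codes): `D` is a polynomial for `(α, β) = (1, √2)` (inner products strictly between `0` and
`1 / 2`), at most `2 ^ (0.17 n)` for `(1.002, 1.2)` (inner products strictly between `0.28` and
`0.497998`), at most `2 ^ (0.013 n)` for `(1.005, √2)`.
-/

open Filter

namespace Pool.Agent.Results.MP_b5f63d_co.MiddleDistances

/-- `C` is a kissing configuration: unit vectors of `ℝ^n`, any two distinct ones at angular
distance at least `π / 3`. -/
def IsKissing {n : ℕ} (C : Finset (EuclideanSpace ℝ (Fin n))) : Prop :=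
  (∀ x ∈ C, ‖x‖ = 1) ∧ ∀ x ∈ C, ∀ y ∈ C, x ≠ y → inner ℝ x y ≤ 1 / 2

open Classical in
/-- The points of `C` that have at most `κ` points of `C` at distance strictly between `α` and
`β`. -/
noncomputable def fewMid {n : ℕ} (C : Finset (EuclideanSpace ℝ (Fin n))) (α β : ℝ) (κ : ℕ) :
    Finset (EuclideanSpace ℝ (Fin n)) :=
  C.filter (fun x => (C.filter (fun y => α < dist x y ∧ dist x y < β)).card ≤ κ)

/-- The largest number of unit vectors of `ℝ^n` with mutual inner products at most `s`. -/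
noncomputable def codeMax (n : ℕ) (s : ℝ) : ℕ :=
  sSup {k | ∃ C : Finset (EuclideanSpace ℝ (Fin n)), (∀ x ∈ C, ‖x‖ = 1) ∧
    (∀ x ∈ C, ∀ y ∈ C, x ≠ y → inner ℝ x y ≤ s) ∧ C.card = k}

/-- The numbers `s_j = 1 - β ^ 2 / (2 α ^ 2 - 1 + 1 / j)`. -/
noncomputable def cosB (α β : ℝ) (j : ℕ) : ℝ := 1 - β ^ 2 / (2 * α ^ 2 - 1 + 1 / j)

theorem result :
    -- the general inequality
    (∀ (n : ℕ) (α β : ℝ) (k J m : ℕ), 1 ≤ α → α < β → 1 ≤ k → 1 ≤ J →
      β ^ 2 < (m + 1) * (β ^ 2 - (2 * α ^ 2 - 1 + 1 / k)) →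
      ∀ (C : Finset (EuclideanSpace ℝ (Fin n))) (κ : ℕ), IsKissing C →
        (fewMid C α β κ).card ≤ (κ + 1) *
          ((∏ j ∈ Finset.Ico 1 k, 2 * codeMax (n + 1) (cosB α β j)) *
            (J + codeMax (n + 1) (cosB α 1 J) + m).choose m)) ∧
    -- inner products strictly between `0` and `1 / 2`, in every dimension
    (∀ (n : ℕ) (C : Finset (EuclideanSpace ℝ (Fin n))) (κ : ℕ), IsKissing C →
      (fewMid C 1 (√2) κ).card ≤ (κ + 1) * (4 * (n + 1) * (n + 5).choose 4)) ∧
    -- numerical forms, in high dimensions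
    (∀ᶠ n : ℕ in atTop, ∀ (C : Finset (EuclideanSpace ℝ (Fin n))) (κ : ℕ), IsKissing C →
      ((fewMid C (201 / 200) (√2) κ).card : ℝ) ≤ (κ + 1) * (2 : ℝ) ^ (13 / 1000 * n : ℝ) ∧
      ((fewMid C (501 / 500) (6 / 5) κ).card : ℝ) ≤ (κ + 1) * (2 : ℝ) ^ (17 / 100 * n : ℝ)) := by
  refine ⟨?_, fun n C κ hC => Pool.Agent.TH220.NT.kiss_C hC.1 hC.2 κ, ?_⟩
  · intro n α β k J m hα hαβ hk hJ hm C κ hC
    have h := Pool.Agent.TH220.NT.kiss_le hα hαβ hk
      (fun Q hQ => Pool.Agent.TH220.NT.clique_gen hα hJ Q hQ) hm hC.1 hC.2 κ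
    rw [Nat.choose_symm_add] at h
    exact h
  · filter_upwards [Pool.Agent.TH220.NT.kiss_A, Pool.Agent.TH220.NT.kiss_B] with n h1 h2 C κ hC
    exact ⟨h2 C κ hC.1 hC.2, h1 C κ hC.1 hC.2⟩

end Pool.Agent.Results.MP_b5f63d_co.MiddleDistances
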